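import Mathlib
import Pool.Agent.Work.MP_8efaaa_nt.Defs

/-!
# R6/Base: the field `K = ℚ(√(-a))`, `a = 6 (mod 16)` squarefree
-/

set_option autoImplicit false

namespace Pool.Agent.Work.MP_8efaaa_nt.R6

open NumberField

/-- `K` is generated by a square root `s` of `-a`, `a` squarefree and `6` modulo `16` -/
structure Base6 (K : Type*) [Field K] [NumberField K] (a : ℕ) (s : K) : Prop where
  dim : Module.finrank ℚ K = 2
  sq : s ^ 2 = -(a : K)
  sf : Squarefree a
  mod : a % 16 = 6

end Pool.Agent.Work.MP_8efaaa_nt.R6
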