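import Mathlib
import Pool.Agent.Work.MP_8efaaa_nt.R.Defs
import Pool.Agent.Work.MP_8efaaa_nt.R.RInt
import Pool.Agent.Work.MP_8efaaa_nt.R6.Base
import Pool.Agent.Work.MP_8efaaa_nt.R6.RInt6

/-!
# R6/FCls6: odd ideals, norms modulo `8`, the half of the class group for `a = 6 (mod 16)`

`K = ℚ(s)`, `s ^ 2 = -a`, `𝓞 K = ℤ[s]`; `N(x + y s) = x ^ 2 + a y ^ 2` is `1` or `7 (mod 8)` for odd `x`, so `e8 ∘ N` is a
function of the class; the ideal `m_ = s p⁻¹` has norm `a / 2 = 3 (mod 8)`.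
-/

set_option autoImplicit false

namespace Pool.Agent.Work.MP_8efaaa_nt.R6

open NumberField
open Pool.Agent.Work.MP_8efaaa_nt.R (OddI e8)
open scoped nonZeroDivisors

universe u

variable {K : Type u} [Field K] [NumberField K] {a : ℕ} {s : K}

/-- odd principal ideals have norm `1` or `7` modulo `8` -/
theorem norm_principal (hb : Base6 K a s) {δ : 𝓞 K} (h : OddI (Ideal.span {δ})) :
    Ideal.absNorm (Ideal.span {δ}) % 8 = 1 ∨ Ideal.absNorm (Ideal.span {δ}) % 8 = 7 := by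
  obtain ⟨S, -, hS⟩ := exists_Q6 hb
  obtain ⟨x, y, rfl⟩ := hS.coords δ
  rw [hS.oddI_span] at h
  have h1 := hS.norm_gen x y
  obtain ⟨k, hk⟩ : ∃ k : ℕ, a = 8 * k + 6 := ⟨a / 8, by have := hS.mod; omega⟩
  rw [hk] at h1
  push_cast at h1
  obtain ⟨t, rfl⟩ := h
  obtain ⟨m, hm⟩ : ∃ m, t ^ 2 + t = 2 * m := by
    obtain ⟨m, hm⟩ := Int.even_mul_succ_self t
    exact ⟨m, by linear_combination hm⟩
  obtain ⟨v, rfl | rfl⟩ := Int.even_or_odd' y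
  · left
    have h2 : (2 * t + 1) ^ 2 + (8 * (k : ℤ) + 6) * (2 * v) ^ 2 =
        8 * (m + (4 * k + 3) * v ^ 2) + 1 := by
      linear_combination 4 * hm
    omega
  · right
    obtain ⟨m', hm'⟩ : ∃ m', v ^ 2 + v = 2 * m' := by
      obtain ⟨m', hm'⟩ := Int.even_mul_succ_self v
      exact ⟨m', by linear_combination hm'⟩
    have h2 : (2 * t + 1) ^ 2 + (8 * (k : ℤ) + 6) * (2 * v + 1) ^ 2 =
        8 * (m + k + (8 * k + 6) * m') + 7 := by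
      linear_combination 4 * hm + 4 * (8 * (k : ℤ) + 6) * hm'
    omega

private theorem mk0_mul_of {I J : (Ideal (𝓞 K))⁰} {x : 𝓞 K}
    (hx : Ideal.span {x} = (I : Ideal (𝓞 K)) * (J : Ideal (𝓞 K))) :
    ClassGroup.mk0 I * ClassGroup.mk0 J = 1 := by
  rw [← map_mul]
  have h1 : (I * J : (Ideal (𝓞 K))⁰) = ⟨(I : Ideal (𝓞 K)) * (J : Ideal (𝓞 K)), (I * J).2⟩ := rfl
  rw [h1, ClassGroup.mk0_eq_one_iff, ← hx]
  exact ⟨x, rfl⟩

theorem exists_odd_rep (hb : Base6 K a s) (C : ClassGroup (𝓞 K)) :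
    ∃ b : (Ideal (𝓞 K))⁰, OddI (b : Ideal (𝓞 K)) ∧ ClassGroup.mk0 b = C := by
  obtain ⟨S, -, hS⟩ := exists_Q6 hb
  obtain ⟨I, hI⟩ := ClassGroup.mk0_surjective C⁻¹
  have hI0 : (I : Ideal (𝓞 K)) ≠ ⊥ := nonZeroDivisors.coe_ne_zero I
  have h1 : ¬ (I : Ideal (𝓞 K)) ≤ (I : Ideal (𝓞 K)) * Q6.P2 S := by
    intro h2
    have h3 : (I : Ideal (𝓞 K)) * Q6.P2 S = (I : Ideal (𝓞 K)) * 1 := by
      rw [mul_one]
      exact le_antisymm (Ideal.mul_le_left) h2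
    have h4 := mul_left_cancel₀ hI0 h3
    have h5 := hS.norm_p2
    rw [h4, Ideal.one_eq_top, Ideal.absNorm_top] at h5
    omega
  obtain ⟨x, hx, hx'⟩ := SetLike.not_le_iff_exists.1 h1
  obtain ⟨b, hb'⟩ := Ideal.dvd_iff_le.2 ((Ideal.span_singleton_le_iff_mem _).2 hx)
  have hodd : OddI b := by
    rw [hS.oddI_iff]
    intro h2
    apply hx'
    have h3 : Ideal.span {x} ≤ (I : Ideal (𝓞 K)) * Q6.P2 S := by
      rw [hb']
      exact Ideal.mul_mono_right h2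
    exact h3 (Ideal.mem_span_singleton_self x)
  refine ⟨⟨b, mem_nonZeroDivisors_iff_ne_zero.2 hodd.ne_bot⟩, hodd, ?_⟩
  have h2 := mk0_mul_of (I := I) (J := ⟨b, mem_nonZeroDivisors_iff_ne_zero.2 hodd.ne_bot⟩) hb'
  rw [hI] at h2
  exact (inv_mul_eq_one.1 h2).symm

private theorem prin_of {b e : (Ideal (𝓞 K))⁰} (h : ClassGroup.mk0 b * ClassGroup.mk0 e = 1) :
    ∃ β : 𝓞 K, (b : Ideal (𝓞 K)) * (e : Ideal (𝓞 K)) = Ideal.span {β} := by
  rw [← map_mul] at h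
  have h1 : (b * e : (Ideal (𝓞 K))⁰) = ⟨(b : Ideal (𝓞 K)) * (e : Ideal (𝓞 K)), (b * e).2⟩ := rfl
  rw [h1, ClassGroup.mk0_eq_one_iff] at h
  obtain ⟨β, hβ⟩ := h.principal
  exact ⟨β, hβ⟩

theorem equiv_odd (hb : Base6 K a s) {b b' : (Ideal (𝓞 K))⁰} (h1 : OddI (b : Ideal (𝓞 K)))
    (h2 : OddI (b' : Ideal (𝓞 K))) (h : ClassGroup.mk0 b = ClassGroup.mk0 b') :
    ∃ α β : 𝓞 K, OddI (Ideal.span {α}) ∧ OddI (Ideal.span {β}) ∧
      Ideal.span {α} * (b : Ideal (𝓞 K)) = Ideal.span {β} * (b' : Ideal (𝓞 K)) := by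
  obtain ⟨e, he, hec⟩ := exists_odd_rep hb (ClassGroup.mk0 b)⁻¹
  obtain ⟨β, hβ⟩ := prin_of (b := b) (e := e) (by rw [hec, mul_inv_cancel])
  obtain ⟨α, hα⟩ := prin_of (b := b') (e := e) (by rw [hec, h, mul_inv_cancel])
  refine ⟨α, β, by rw [← hα]; exact h2.mul he, by rw [← hβ]; exact h1.mul he, ?_⟩
  rw [← hα, ← hβ]
  ring

/-- the principal ideal `(1 + s)` has norm `7 (mod 8)` -/
theorem exists_seven (hb : Base6 K a s) : ∃ δ : 𝓞 K, algebraMap (𝓞 K) K δ = 1 + s ∧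
    Ideal.absNorm (Ideal.span {δ}) % 8 = 7 := by
  obtain ⟨S, hSs, hS⟩ := exists_Q6 hb
  refine ⟨1 + S, by rw [map_add, map_one, hSs], ?_⟩
  have h2 := hS.norm_gen 1 1
  have e : ((1 : ℤ) : 𝓞 K) + ((1 : ℤ) : 𝓞 K) * S = 1 + S := by push_cast; ring
  rw [e] at h2
  push_cast at h2
  have h3 := hS.mod
  omega

/-- the ideal `m_ = s p⁻¹` of norm `a / 2 = 3 (mod 8)` -/
theorem exists_three (hb : Base6 K a s) : ∃ d : Ideal (𝓞 K), Ideal.absNorm d % 8 = 3 := by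
  obtain ⟨S, -, hS⟩ := exists_Q6 hb
  have h1 : Ideal.span {S} ≤ Q6.P2 S := (Ideal.span_singleton_le_iff_mem _).2 Q6.gen_mem_p2
  obtain ⟨d, hd⟩ := Ideal.dvd_iff_le.2 h1
  refine ⟨d, ?_⟩
  have h2 := hS.norm_gen 0 1
  have e : ((0 : ℤ) : 𝓞 K) + ((1 : ℤ) : 𝓞 K) * S = S := by push_cast; ring
  rw [e, hd, map_mul, hS.norm_p2] at h2
  push_cast at h2
  have h3 := hb.mod
  omega

theorem exists_five (hb : Base6 K a s) : ∃ d : Ideal (𝓞 K), Ideal.absNorm d % 8 = 5 := by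
  obtain ⟨d, hd⟩ := exists_three hb
  obtain ⟨δ, -, hδ⟩ := exists_seven hb
  exact ⟨Ideal.span {δ} * d, by rw [map_mul, Nat.mul_mod, hδ, hd]⟩

private theorem nat_eq8 {A B C D : ℕ} (hA : A % 8 = 1 ∨ A % 8 = 7) (hC : C % 8 = 1 ∨ C % 8 = 7)
    (h : A * B = C * D) (hB : B % 2 = 1) (hD : D % 2 = 1) :
    (A % 8 = C % 8 ∧ B % 8 = D % 8) ∨ (A % 8 ≠ C % 8 ∧ (B % 8 + D % 8) = 8) := by
  have h1 : (A * B) % 8 = (C * D) % 8 := by rw [h]
  rw [Nat.mul_mod A, Nat.mul_mod C] at h1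
  have hB' : B % 8 < 8 := Nat.mod_lt _ (by norm_num)
  have hD' : D % 8 < 8 := Nat.mod_lt _ (by norm_num)
  have hB2 : B % 8 % 2 = 1 := by omega
  have hD2 : D % 8 % 2 = 1 := by omega
  rcases hA with hA | hA <;> rcases hC with hC | hC <;> rw [hA, hC] at h1 ⊢ <;>
    generalize B % 8 = b at * <;> generalize D % 8 = d at * <;> interval_cases b <;>
    interval_cases d <;> simp_all

/-- equivalent odd ideals: the norms modulo `8` agree up to sign; if they agree, the two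
elements can be chosen of norm `1 (mod 8)` -/
theorem equiv_one (hb : Base6 K a s) {b b' : (Ideal (𝓞 K))⁰} (h1 : OddI (b : Ideal (𝓞 K)))
    (h : ClassGroup.mk0 b = ClassGroup.mk0 b')
    (h8 : Ideal.absNorm (b : Ideal (𝓞 K)) % 8 = Ideal.absNorm (b' : Ideal (𝓞 K)) % 8) :
    ∃ α β : 𝓞 K, Ideal.absNorm (Ideal.span {α}) % 8 = 1 ∧ Ideal.absNorm (Ideal.span {β}) % 8 = 1 ∧
      Ideal.span {α} * (b : Ideal (𝓞 K)) = Ideal.span {β} * (b' : Ideal (𝓞 K)) := by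
  have o1 : Ideal.absNorm (b : Ideal (𝓞 K)) % 2 = 1 := Nat.odd_iff.1 h1
  have o2 : Ideal.absNorm (b' : Ideal (𝓞 K)) % 2 = 1 := by omega
  obtain ⟨α, β, hα, hβ, he⟩ := equiv_odd hb h1 (Nat.odd_iff.2 o2) h
  have h3 := congrArg Ideal.absNorm he
  rw [map_mul, map_mul] at h3
  have h4 := norm_principal hb hα
  have h5 := norm_principal hb hβ
  have h6 : Ideal.absNorm (Ideal.span {α}) % 8 = Ideal.absNorm (Ideal.span {β}) % 8 := by
    rcases nat_eq8 h4 h5 h3 o1 o2 with h6 | h6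
    · exact h6.1
    · omega
  rcases h4 with h4 | h4
  · exact ⟨α, β, h4, by omega, he⟩
  · obtain ⟨δ, -, hδ⟩ := exists_seven hb
    refine ⟨δ * α, δ * β, ?_, ?_, ?_⟩
    · rw [← Ideal.span_singleton_mul_span_singleton, map_mul, Nat.mul_mod, hδ, h4]
    · rw [← Ideal.span_singleton_mul_span_singleton, map_mul, Nat.mul_mod, hδ, ← h6, h4]
    · rw [← Ideal.span_singleton_mul_span_singleton, ← Ideal.span_singleton_mul_span_singleton,
        mul_assoc, he, mul_assoc]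

/-- `e8 ∘ N` is a function of the class -/
theorem norm_class (hb : Base6 K a s) {b b' : (Ideal (𝓞 K))⁰} (h1 : OddI (b : Ideal (𝓞 K)))
    (h2 : OddI (b' : Ideal (𝓞 K))) (h : ClassGroup.mk0 b = ClassGroup.mk0 b') :
    Ideal.absNorm (b : Ideal (𝓞 K)) % 8 = Ideal.absNorm (b' : Ideal (𝓞 K)) % 8 ∨
      Ideal.absNorm (b : Ideal (𝓞 K)) % 8 + Ideal.absNorm (b' : Ideal (𝓞 K)) % 8 = 8 := by
  obtain ⟨α, β, hα, hβ, he⟩ := equiv_odd hb h1 h2 h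
  have h3 := congrArg Ideal.absNorm he
  rw [map_mul, map_mul] at h3
  rcases nat_eq8 (norm_principal hb hα) (norm_principal hb hβ) h3 (Nat.odd_iff.1 h1)
    (Nat.odd_iff.1 h2) with h6 | h6
  · exact Or.inl h6.2
  · exact Or.inr h6.2

/-- the classes of the ideals of norm `1 (mod 8)` are one half of the class group -/
theorem exists_half (hb : Base6 K a s) : ∃ S : Subgroup (ClassGroup (𝓞 K)),
    2 * Nat.card S = Fintype.card (ClassGroup (𝓞 K)) ∧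
    (∀ C ∈ S, ∃ b : (Ideal (𝓞 K))⁰, Ideal.absNorm (b : Ideal (𝓞 K)) % 8 = 1 ∧
      ClassGroup.mk0 b = C) ∧
    (∀ b : (Ideal (𝓞 K))⁰, Ideal.absNorm (b : Ideal (𝓞 K)) % 8 = 1 → ClassGroup.mk0 b ∈ S) ∧
    ∀ b : (Ideal (𝓞 K))⁰, Ideal.absNorm (b : Ideal (𝓞 K)) % 8 = 3 ∨
      Ideal.absNorm (b : Ideal (𝓞 K)) % 8 = 5 → ClassGroup.mk0 b ∉ S := by
  let S : Subgroup (ClassGroup (𝓞 K)) :=
    { carrier := {C | ∃ b : (Ideal (𝓞 K))⁰, Ideal.absNorm (b : Ideal (𝓞 K)) % 8 = 1 ∧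
        ClassGroup.mk0 b = C}
      mul_mem' := by
        rintro _ _ ⟨b, hb1, rfl⟩ ⟨b', hb1', rfl⟩
        refine ⟨b * b', ?_, map_mul _ _ _⟩
        rw [Submonoid.coe_mul, map_mul, Nat.mul_mod, hb1, hb1']
      one_mem' := ⟨1, by rw [Submonoid.coe_one, map_one]; norm_num, map_one _⟩
      inv_mem' := by
        rintro _ ⟨b, hb1, rfl⟩
        refine ⟨b ^ (orderOf (ClassGroup.mk0 b) - 1), ?_, ?_⟩
        · rw [SubmonoidClass.coe_pow, map_pow, Nat.pow_mod, hb1, one_pow]; norm_num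
        · rw [map_pow, eq_inv_iff_mul_eq_one, ← pow_succ,
            Nat.sub_add_cancel (orderOf_pos _), pow_orderOf_eq_one] }
  have hmem : ∀ C, C ∈ S ↔ ∃ b : (Ideal (𝓞 K))⁰, Ideal.absNorm (b : Ideal (𝓞 K)) % 8 = 1 ∧
        ClassGroup.mk0 b = C := fun C => Iff.rfl
  have hno : ∀ b : (Ideal (𝓞 K))⁰, Ideal.absNorm (b : Ideal (𝓞 K)) % 8 = 3 ∨
      Ideal.absNorm (b : Ideal (𝓞 K)) % 8 = 5 → ClassGroup.mk0 b ∉ S := by
    rintro b h1 ⟨b', h2, h3⟩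
    rcases norm_class hb (b := b) (b' := b') (Nat.odd_iff.2 (by omega)) (Nat.odd_iff.2 (by omega))
      h3.symm with h4 | h4 <;> omega
  obtain ⟨δ, -, hδ⟩ := exists_seven hb
  have hδ0 : Ideal.span {δ} ∈ (Ideal (𝓞 K))⁰ := by
    rw [mem_nonZeroDivisors_iff_ne_zero]
    rintro h0
    rw [h0, Ideal.zero_eq_bot, Ideal.absNorm_bot] at hδ
    omega
  have hδ1 : ClassGroup.mk0 (⟨Ideal.span {δ}, hδ0⟩ : (Ideal (𝓞 K))⁰) = 1 := by
    rw [ClassGroup.mk0_eq_one_iff]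
    exact ⟨δ, rfl⟩
  have hyes : ∀ b : (Ideal (𝓞 K))⁰, Ideal.absNorm (b : Ideal (𝓞 K)) % 8 = 1 ∨
      Ideal.absNorm (b : Ideal (𝓞 K)) % 8 = 7 → ClassGroup.mk0 b ∈ S := by
    rintro b (h1 | h1)
    · exact ⟨b, h1, rfl⟩
    · refine ⟨⟨Ideal.span {δ}, hδ0⟩ * b, ?_, ?_⟩
      · rw [Submonoid.coe_mul, map_mul, Nat.mul_mod]
        simp only [hδ, h1]
      · rw [map_mul, hδ1, one_mul]
  refine ⟨S, ?_, fun C hC => hC, fun b hb1 => ⟨b, hb1, rfl⟩, hno⟩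
  obtain ⟨d, hd⟩ := exists_three hb
  have hd0 : d ≠ ⊥ := by
    rintro rfl
    rw [Ideal.absNorm_bot] at hd
    omega
  set D : (Ideal (𝓞 K))⁰ := ⟨d, mem_nonZeroDivisors_iff_ne_zero.2 hd0⟩ with hD
  have hidx : S.index = 2 := by
    rw [Subgroup.index_eq_two_iff]
    refine ⟨ClassGroup.mk0 D, fun C => ?_⟩
    obtain ⟨b, hbo, rfl⟩ := exists_odd_rep hb C
    have hbo' : Ideal.absNorm (b : Ideal (𝓞 K)) % 2 = 1 := Nat.odd_iff.1 hbo
    have hbD : Ideal.absNorm ((b * D : (Ideal (𝓞 K))⁰) : Ideal (𝓞 K)) % 8 =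
        Ideal.absNorm (b : Ideal (𝓞 K)) % 8 * 3 % 8 := by
      rw [Submonoid.coe_mul, map_mul, Nat.mul_mod, hD]
      simp only [hd]
    have hcase : (Ideal.absNorm (b : Ideal (𝓞 K)) % 8 = 1 ∨
        Ideal.absNorm (b : Ideal (𝓞 K)) % 8 = 7) ∨ (Ideal.absNorm (b : Ideal (𝓞 K)) % 8 = 3 ∨
        Ideal.absNorm (b : Ideal (𝓞 K)) % 8 = 5) := by omega
    rw [← map_mul]
    rcases hcase with h1 | h1
    · right
      refine ⟨hyes b h1, hno (b * D) ?_⟩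
      rcases h1 with h1 | h1 <;> rw [h1] at hbD <;> omega
    · left
      refine ⟨hyes (b * D) ?_, hno b h1⟩
      rcases h1 with h1 | h1 <;> rw [h1] at hbD <;> omega
  have h1 := S.card_mul_index
  rw [hidx, Nat.card_eq_fintype_card (α := ClassGroup (𝓞 K))] at h1
  omega

/-- elements of norm `1 (mod 8)` -/
theorem norm_one (hb : Base6 K a s) {α : 𝓞 K} (h : Ideal.absNorm (Ideal.span {α}) % 8 = 1) :
    ∃ x y : ℤ, Odd x ∧ algebraMap (𝓞 K) K α = x + 2 * y * s := by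
  obtain ⟨S, hSs, hS⟩ := exists_Q6 hb
  obtain ⟨x, y, rfl⟩ := hS.coords α
  have hodd : OddI (Ideal.span {(x : 𝓞 K) + (y : 𝓞 K) * S}) := Nat.odd_iff.2 (by omega)
  rw [hS.oddI_span] at hodd
  have h1 := hS.norm_gen x y
  obtain ⟨k, hk⟩ : ∃ k : ℕ, a = 8 * k + 6 := ⟨a / 8, by have := hS.mod; omega⟩
  rw [hk] at h1
  push_cast at h1
  refine ⟨x, y / 2, hodd, ?_⟩
  obtain ⟨t, rfl⟩ := hodd
  obtain ⟨m, hm⟩ : ∃ m, t ^ 2 + t = 2 * m := by
    obtain ⟨m, hm⟩ := Int.even_mul_succ_self t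
    exact ⟨m, by linear_combination hm⟩
  obtain ⟨v, rfl | rfl⟩ := Int.even_or_odd' y
  · rw [map_add, map_mul, map_intCast, map_intCast, hSs, Int.mul_ediv_cancel_left _ two_ne_zero]
    push_cast
    ring
  · exfalso
    obtain ⟨m', hm'⟩ : ∃ m', v ^ 2 + v = 2 * m' := by
      obtain ⟨m', hm'⟩ := Int.even_mul_succ_self v
      exact ⟨m', by linear_combination hm'⟩
    have h2 : (2 * t + 1) ^ 2 + (8 * (k : ℤ) + 6) * (2 * v + 1) ^ 2 =
        8 * (m + k + (8 * k + 6) * m') + 7 := by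
      linear_combination 4 * hm + 4 * (8 * (k : ℤ) + 6) * hm'
    omega

end Pool.Agent.Work.MP_8efaaa_nt.R6
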