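import Mathlib
import Pool.Agent.Work.MP_787500_nt.H10_Quad
import Pool.Agent.Work.MP_8efaaa_nt.R6.Base
import Pool.Agent.Work.MP_8efaaa_nt.R.Defs
import Pool.Agent.Work.MP_8efaaa_nt.R.TorB

/-!
# R6/TorK6: the points of `y ^ 2 = x ^ 3 - x` over `K = ℚ(√(-a))`, `a = 6 (mod 16)`, if `a` is not congruent
-/

set_option autoImplicit false

namespace Pool.Agent.Work.MP_8efaaa_nt.R6

open NumberField WeierstrassCurve WeierstrassCurve.Affine
open Pool.Agent.Work.MP_8efaaa_nt.R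

universe u

private theorem nat_sq6 {a : ℕ} (h8 : a % 16 = 6) {r : ℚ} (h : r ^ 2 = (a : ℚ)) : False := by
  have h1 : IsSquare (a : ℚ) := ⟨r, by rw [← h, pow_two]⟩
  obtain ⟨m, hm⟩ := Rat.isSquare_natCast_iff.1 h1
  have h2 : m % 4 < 4 := Nat.mod_lt _ (by norm_num)
  have h3 : a % 4 = (m % 4) * (m % 4) % 4 := by rw [hm, Nat.mul_mod]
  interval_cases (m % 4) <;> omega

/-- no rational `w` has `e w ^ 2 = 2`, for `e = 1` or `e = -a` -/
private theorem no_two6 {a : ℕ} {w e : ℚ} (he : e = 1 ∨ e = -(a : ℚ)) (h : e * w ^ 2 = 2) :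
    False := by
  rcases he with rfl | rfl
  · have h1 : IsSquare ((2 : ℕ) : ℚ) := ⟨w, by push_cast; linear_combination -h⟩
    obtain ⟨m, hm⟩ := Rat.isSquare_natCast_iff.1 h1
    have h2 : m < 2 := by nlinarith
    interval_cases m <;> omega
  · have : (0 : ℚ) ≤ (a : ℚ) * w ^ 2 := by positivity
    linarith

open scoped Classical in
/-- the points of `y ^ 2 = x ^ 3 - x` over `K` if `a` is not congruent -/
theorem tor_K6 {K : Type u} [Field K] [NumberField K] {a : ℕ} {s : K} (hb : Base6 K a s)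
    (ha : ¬ IsCongruent a) {x y : K} (h : y ^ 2 = x ^ 3 - x) : y = 0 := by
  have ha0 : 0 < a := by
    have := hb.mod
    omega
  obtain ⟨σ', hσ'⟩ := Pool.Agent.Work.MP_787500_nt.Quad.exists_conj hb.dim hb.sq ha0
  obtain ⟨σ, hσσ'⟩ : ∃ σ : K ≃ₐ[ℚ] K, ∀ z, σ z = σ' z :=
    ⟨AlgEquiv.ofRingEquiv (f := σ') (fun r => by simp), fun z => rfl⟩
  have hσ : σ s = -s := by rw [hσσ', hσ']
  have hcoord := fun z : K => Pool.Agent.Work.MP_787500_nt.Quad.exists_coords hb.dim hb.sq ha0 z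
  have hσc : ∀ p q : ℚ, σ ((p : K) + q * s) = (p : K) - q * s := by
    intro p q
    rw [map_add, map_mul, map_ratCast, map_ratCast, hσ]
    ring
  have hσσ : ∀ z, σ (σ z) = z := by
    intro z
    obtain ⟨p, q, rfl⟩ := hcoord z
    rw [hσc]
    have h1 := hσc p (-q)
    push_cast at h1
    have h2 : (p : K) - q * s = (p : K) + -q * s := by ring
    rw [h2, h1]
    ring
  have hfix : ∀ z, σ z = z → ∃ r : ℚ, z = r := by
    intro z hz
    obtain ⟨p, q, rfl⟩ := hcoord z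
    rw [hσc] at hz
    have h1 : ((0 : ℚ) : K) + ((2 * q : ℚ) : K) * s = 0 := by
      push_cast
      linear_combination -hz
    have h2 := (Pool.Agent.Work.MP_787500_nt.Quad.not_rat hb.sq ha0 _ _ h1).2
    have h3 : q = 0 := by linarith
    exact ⟨p, by rw [h3]; simp⟩
  have hneg : ∀ z, σ z = -z → ∃ r : ℚ, z = r * s := by
    intro z hz
    obtain ⟨p, q, rfl⟩ := hcoord z
    rw [hσc] at hz
    have h1 : ((2 * p : ℚ) : K) + ((0 : ℚ) : K) * s = 0 := by
      push_cast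
      linear_combination hz
    have h2 := (Pool.Agent.Work.MP_787500_nt.Quad.not_rat hb.sq ha0 _ _ h1).1
    have h3 : p = 0 := by linarith
    exact ⟨q, by rw [h3]; simp⟩
  -- squares of eigenvectors
  have heig : ∀ z, σ z = z ∨ σ z = -z → ∃ w e : ℚ, (e = 1 ∨ e = -1 ∨ e = a ∨ e = -a) ∧
      z ^ 2 = ((e * w ^ 2 : ℚ) : K) ∧ (w = 0 → z = 0) ∧ (e = 1 ∨ e = -a) := by
    rintro z (hz | hz)
    · obtain ⟨w, rfl⟩ := hfix z hz
      exact ⟨w, 1, Or.inl rfl, by push_cast; ring, by rintro rfl; simp, Or.inl rfl⟩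
    · obtain ⟨w, rfl⟩ := hneg z hz
      refine ⟨w, -a, Or.inr (Or.inr (Or.inr rfl)), ?_, by rintro rfl; simp, Or.inr rfl⟩
      push_cast
      linear_combination (w : K) ^ 2 * hb.sq
  have hsgn : ∀ (z : K) (c : ℚ), z ^ 2 = c → σ z = z ∨ σ z = -z := by
    intro z c hz
    apply sq_eq_sq_iff_eq_or_eq_neg.1
    rw [← map_pow, hz, map_ratCast]
  have h2 : ∀ z : K, z ^ 2 ≠ 2 := by
    intro z hz
    obtain ⟨w, e, -, hw, -, he⟩ := heig z (hsgn z 2 (by rw [hz]; norm_num))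
    refine no_two6 (a := a) he (w := w) ?_
    rw [hz] at hw
    exact_mod_cast hw.symm
  have h1 : ∀ z : K, z ^ 2 ≠ -1 := by
    intro z hz
    obtain ⟨w, e, he, hw, -, he'⟩ := heig z (hsgn z (-1) (by rw [hz]; norm_num))
    rw [hz] at hw
    have hw' : e * w ^ 2 = -1 := by exact_mod_cast hw.symm
    rcases he' with rfl | rfl
    · nlinarith [sq_nonneg w]
    · have hw0 : w ≠ 0 := by
        rintro rfl
        norm_num at hw'
      refine nat_sq6 hb.mod (r := 1 / w) ?_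
      rw [div_pow, div_eq_iff (pow_ne_zero 2 hw0)]
      linarith
  obtain ⟨m, hm⟩ := exists_mp σ
  have mm : ∀ Q, m (m Q) = Q := by
    rintro (_ | ⟨x, y, hxy⟩)
    · exact (congrArg m m.map_zero).trans m.map_zero
    · obtain ⟨h1, e1⟩ := hm x y hxy
      obtain ⟨h2, e2⟩ := hm _ _ h1
      rw [e1, e2]
      simp only [hσσ]
  have iso : ∀ N : (cQ K).Point, (m N = N ∨ m N = -N) → N + N = 0 := by
    rintro (_ | ⟨x, y, hxy⟩) h3
    · exact add_zero 0
    · apply double_zero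
      obtain ⟨hn', e⟩ := hm x y hxy
      have h4 : σ x = x ∧ (σ y = y ∨ σ y = -y) := by
        rcases h3 with h3 | h3
        · rw [e] at h3
          injection h3 with h4 h5
          exact ⟨h4, Or.inl h5⟩
        · rw [e, Point.neg_some] at h3
          injection h3 with h4 h5
          exact ⟨h4, Or.inr (by rw [h5, negY_cQ])⟩
      obtain ⟨X, rfl⟩ := hfix x h4.1
      obtain ⟨w, e, he, hw, h0, -⟩ := heig y h4.2
      have hEq : y ^ 2 = (X : K) ^ 3 - X := cQ_eq.1 hxy.1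
      rw [hw] at hEq
      exact h0 (no_cubic ha0 ha he (t := X) (by exact_mod_cast hEq))
  have hxy : (cQ K).Nonsingular x y := cQ_ns h
  set P : (cQ K).Point := Point.some x y hxy with hP
  have k1 := iso (P + m P) (Or.inl (by rw [map_add, mm, add_comm]))
  have k2 := iso (P - m P) (Or.inr (by rw [map_sub, mm, neg_sub]))
  have h4 : (P + P) + (P + P) = 0 := by
    have : (P + P) + (P + P) = ((P + m P) + (P + m P)) + ((P - m P) + (P - m P)) := by abel
    rw [this, k1, k2, add_zero]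
  by_contra hy
  obtain ⟨x', y', hn', hadd, hx, hxm, hxp⟩ := double hxy hy
  rw [← hP] at hadd
  rw [hadd] at h4
  have hy' : y' = 0 := by
    by_contra hy'
    obtain ⟨x'', y'', hn'', hadd', -⟩ := double hn' hy'
    rw [hadd'] at h4
    exact Point.some_ne_zero _ h4
  have hEq : y' ^ 2 = x' ^ 3 - x' := cQ_eq.1 hn'.1
  have h6 : x' * ((x' - 1) * (x' + 1)) = 0 := by rw [hy'] at hEq; linear_combination -hEq
  rcases mul_eq_zero.1 h6 with h7 | h7
  · exact h1 ((x ^ 2 - 2 * x - 1) / (2 * y)) (by rw [← hxm, h7]; ring)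
  · rcases mul_eq_zero.1 h7 with h8 | h8
    · exact h2 ((x ^ 2 + 2 * x - 1) / (2 * y)) (by rw [← hxp]; linear_combination h8)
    · exact h1 ((x ^ 2 + 1) / (2 * y)) (by rw [← hx]; linear_combination h8)

end Pool.Agent.Work.MP_8efaaa_nt.R6
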